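import Pool.Agent.FGT.Stmts

/-!
Row KEX of the squad FGT: points with maximal kernel.
-/

namespace Pool.Agent.FGT.H26

open Filter Topology Pool.Agent.FGT

universe u

variable {L : Type u} [Group L]

theorem orb_mono (α : L →* Equiv.Perm ℤ) {K K' : Subgroup L} (h : K ≤ K') (j : ℤ) :
    orb α K j ⊆ orb α K' j := by
  rintro i ⟨g, hg, hgi⟩
  exact ⟨g, h hg, hgi⟩

theorem II_mono (α : L →* Equiv.Perm ℤ) {K K' : Subgroup L} (h : K ≤ K') : II α K ⊆ II α K' :=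
  fun j hj => Set.Infinite.mono (orb_mono α h j) hj

theorem fx_sup (α : L →* Equiv.Perm ℤ) {K K' : Subgroup L} {z : ℤ} (h : z ∈ Fx α K)
    (h' : z ∈ Fx α K') : z ∈ Fx α (K ⊔ K') := by
  let S : Subgroup L :=
    { carrier := {g | α g z = z}
      mul_mem' := by
        intro a b ha hb
        show α (a * b) z = z
        rw [map_mul, Equiv.Perm.mul_apply, show α b z = z from hb]
        exact ha
      one_mem' := by
        show α 1 z = z
        rw [map_one]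
        rfl
      inv_mem' := by
        intro a ha
        show α a⁻¹ z = z
        rw [map_inv]
        exact Equiv.Perm.inv_eq_iff_eq.2 (show α a z = z from ha).symm }
  have h1 : K ⊔ K' ≤ S := sup_le (fun g hg => h g hg) (fun g hg => h' g hg)
  exact fun g hg => h1 hg

/-- nearly optimal pairs above a given pair -/
theorem key (α : L →* Equiv.Perm ℤ) {I : (ℤ → ℝ) → ℝ} (hI : IsMean I) (z z' : ℤ)
    {K K' : Subgroup L} (hK : K.FG) (hK' : K'.FG) (hz : z ∈ Fx α K) (hz' : z' ∈ Fx α K')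
    {ε : ℝ} (hε : 0 < ε) :
    ∃ K₁ K₁' : Subgroup L, K ≤ K₁ ∧ K' ≤ K₁' ∧ K₁.FG ∧ K₁'.FG ∧ z ∈ Fx α K₁ ∧ z' ∈ Fx α K₁' ∧
      kk α I z z' - ε < ms I {y | y ∈ II α K₁ ∧ y ∈ II α K₁' ∧ Lk α y z z'} := by
  have hne : {r | ∃ K K' : Subgroup L, K.FG ∧ K'.FG ∧ z ∈ Fx α K ∧ z' ∈ Fx α K' ∧
      r = ms I {y | y ∈ II α K ∧ y ∈ II α K' ∧ Lk α y z z'}}.Nonempty :=
    ⟨_, K, K', hK, hK', hz, hz', rfl⟩
  obtain ⟨r, ⟨K₀, K₀', h1, h2, h3, h4, rfl⟩, hr⟩ :=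
    exists_lt_of_lt_csSup hne (sub_lt_self (kk α I z z') hε)
  refine ⟨K₀ ⊔ K, K₀' ⊔ K', le_sup_right, le_sup_right, h1.sup hK, h2.sup hK', fx_sup α h3 hz,
    fx_sup α h4 hz', hr.trans_le (hI.ms_mono ?_)⟩
  rintro y ⟨hy1, hy2, hy3⟩
  exact ⟨II_mono α le_sup_left hy1, II_mono α le_sup_left hy2, hy3⟩

theorem kex (kra : KraStmt.{u}) : KexStmt.{u} := by
  intro L _ α hα I hI z z' hkk hDD
  obtain ⟨-, -, -, -, -, hle, -⟩ := kra L α hα I hI
  have main : ∀ (K₁ K₁' : Subgroup L) (ε : ℝ), K₁.FG → z ∈ Fx α K₁ →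
      kk α I z z' - ε < ms I {y | y ∈ II α K₁ ∧ y ∈ II α K₁' ∧ Lk α y z z'} →
      ms I (II α K₁ \ {y | y ∈ II α K₁ ∧ y ∈ II α K₁' ∧ Lk α y z z'}) ≤ ε := by
    intro K₁ K₁' ε h1 h2 h3
    have h4 := hI.ms_inter_add_diff (II α K₁)
      {y | y ∈ II α K₁ ∧ y ∈ II α K₁' ∧ Lk α y z z'}
    have h5 : II α K₁ ∩ {y | y ∈ II α K₁ ∧ y ∈ II α K₁' ∧ Lk α y z z'} =
        {y | y ∈ II α K₁ ∧ y ∈ II α K₁' ∧ Lk α y z z'} :=
      Set.inter_eq_right.2 fun y hy => hy.1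
    rw [h5] at h4
    have h6 := hle z K₁ h1 h2
    rw [hkk] at h3
    linarith
  constructor
  · intro K hK hz
    apply le_antisymm _ (hI.ms_nonneg _)
    apply le_of_forall_pos_le_add
    intro ε hε
    have hbot : z' ∈ Fx α (⊥ : Subgroup L) := by
      intro g hg
      rw [Subgroup.mem_bot.1 hg, map_one]
      rfl
    obtain ⟨K₁, K₁', h1, -, h3, -, h5, -, h7⟩ :=
      key α hI z z' hK Subgroup.FG.bot hz hbot hε
    have h8 := main K₁ K₁' ε h3 h5 h7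
    rw [zero_add]
    refine (hI.ms_mono ?_).trans h8
    rintro y ⟨hy1, hy2⟩
    exact ⟨II_mono α h1 hy1, fun hy => hy2 hy.2.2⟩
  · intro K K' ε hK hK' hz hz' hε
    apply le_of_forall_pos_le_add
    intro ε' hε'
    obtain ⟨K₁, K₁', h1, h2, h3, h4, h5, h6, h7⟩ := key α hI z z' hK hK' hz hz' hε'
    have h8 := main K₁ K₁' ε' h3 h5 h7
    have h9 : ms I (II α K₁' \ II α K') ≤ ε := by
      have e1 := hI.ms_inter_add_diff (II α K₁') (II α K')
      rw [Set.inter_eq_right.2 (II_mono α h2)] at e1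
      have e2 := hle z' K₁' h4 h6
      rw [hDD] at e2
      linarith
    have h10 : II α K \ II α K' ⊆
        (II α K₁' \ II α K') ∪ (II α K₁ \ {y | y ∈ II α K₁ ∧ y ∈ II α K₁' ∧ Lk α y z z'}) := by
      rintro y ⟨hy1, hy2⟩
      by_cases hy3 : y ∈ II α K₁'
      · exact Or.inl ⟨hy3, hy2⟩
      · exact Or.inr ⟨II_mono α h1 hy1, fun hy => hy3 hy.2.1⟩
    calc ms I (II α K \ II α K') ≤ _ := hI.ms_mono h10
      _ ≤ _ := hI.ms_union_le _ _
      _ ≤ ε + ε' := add_le_add h9 h8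

end Pool.Agent.FGT.H26
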